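import Pool.Agent.Run7.h35.EX.Stm

/-! PIG piece of project EX (helper834): pigeonhole over the levels. -/

set_option autoImplicit false
open scoped BigOperators

namespace Run7.h834.EX

open Run7.h35.EX

theorem Mi_nonneg {V ι : Type} [Fintype V] [AddCommGroup V] [Fintype ι] [Nonempty ι]
    (a : V → ι → ℝ) (i : ι) : 0 ≤ Mi a i := by
  unfold Mi av
  exact div_nonneg (Finset.sum_nonneg fun x _ => abs_nonneg _) (Nat.cast_nonneg _)

theorem nrm1_nonneg {V ι : Type} [Fintype V] [AddCommGroup V] [Fintype ι] [Nonempty ι]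
    (a : V → ι → ℝ) : 0 ≤ nrm1 a := by
  unfold nrm1 av
  exact div_nonneg (Finset.sum_nonneg fun x _ =>
    div_nonneg (Finset.sum_nonneg fun i _ => abs_nonneg _) (Nat.cast_nonneg _))
    (Nat.cast_nonneg _)

theorem abs_mid {V ι : Type} [Fintype V] [AddCommGroup V] [Fintype ι] [Nonempty ι]
    (a : V → ι → ℝ) (L L' : ℝ) (hL : L ≤ L') (x : V) (i : ι) :
    |mid L L' a x i| = |high L a x i| - |high L' a x i| := by
  have hM : L * Mi a i ≤ L' * Mi a i := mul_le_mul_of_nonneg_right hL (Mi_nonneg a i)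
  unfold mid low high
  by_cases h1 : |a x i| ≤ L * Mi a i
  · have h2 : ¬ (L * Mi a i < |a x i|) := not_lt.mpr h1
    have h3 : ¬ (L' * Mi a i < |a x i|) := not_lt.mpr (h1.trans hM)
    rw [if_pos h1, if_neg h2, if_neg h3]
    simp
  · have h2 : L * Mi a i < |a x i| := not_le.mp h1
    rw [if_neg h1, if_pos h2]
    by_cases h3 : L' * Mi a i < |a x i|
    · rw [if_pos h3]; simp
    · rw [if_neg h3]; simp

theorem abs_high_le {V ι : Type} [Fintype V] [AddCommGroup V] [Fintype ι] [Nonempty ι]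
    (a : V → ι → ℝ) (L : ℝ) (x : V) (i : ι) : |high L a x i| ≤ |a x i| := by
  unfold high
  split_ifs
  · exact le_rfl
  · simp

theorem nrm1_mid {V ι : Type} [Fintype V] [AddCommGroup V] [Fintype ι] [Nonempty ι]
    (a : V → ι → ℝ) (L L' : ℝ) (hL : L ≤ L') :
    nrm1 (mid L L' a) = nrm1 (high L a) - nrm1 (high L' a) := by
  unfold nrm1 av
  simp only [abs_mid a L L' hL, Finset.sum_sub_distrib, sub_div]

theorem nrm1_high_le {V ι : Type} [Fintype V] [AddCommGroup V] [Fintype ι] [Nonempty ι]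
    (a : V → ι → ℝ) (L : ℝ) : nrm1 (high L a) ≤ nrm1 a := by
  unfold nrm1 av
  refine div_le_div_of_nonneg_right (Finset.sum_le_sum fun x _ => ?_) (Nat.cast_nonneg _)
  exact div_le_div_of_nonneg_right (Finset.sum_le_sum fun i _ => abs_high_le a L x i)
    (Nat.cast_nonneg _)

theorem t_PIG : S_PIG := by
  intro V ι _ _ _ _ a Q R hQ hR ha
  by_contra hcon
  push Not at hcon
  have hQ0 : (0 : ℝ) < Q := by exact_mod_cast hQ
  have hsum : ∑ q ∈ Finset.range Q, nrm1 (mid (R ^ q) (R ^ (q + 1)) a) ≤ 1 := by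
    have h1 : ∀ q ∈ Finset.range Q, nrm1 (mid (R ^ q) (R ^ (q + 1)) a) =
        nrm1 (high (R ^ q) a) - nrm1 (high (R ^ (q + 1)) a) := fun q _ =>
      nrm1_mid a _ _ (pow_le_pow_right₀ hR (Nat.le_succ q))
    rw [Finset.sum_congr rfl h1,
      Finset.sum_range_sub' (fun q => nrm1 (high (R ^ q) a)) Q]
    have h2 := nrm1_nonneg (high (R ^ Q) a)
    have h3 := nrm1_high_le a (R ^ 0)
    linarith
  have hlt : ∑ q ∈ Finset.range Q, (1 / (Q : ℝ)) <
      ∑ q ∈ Finset.range Q, nrm1 (mid (R ^ q) (R ^ (q + 1)) a) := by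
    refine Finset.sum_lt_sum_of_nonempty ⟨0, Finset.mem_range.mpr hQ⟩ fun q hq => ?_
    exact hcon q (Finset.mem_range.mp hq)
  rw [Finset.sum_const, Finset.card_range, nsmul_eq_mul, mul_one_div_cancel hQ0.ne'] at hlt
  linarith

end Run7.h834.EX
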